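import Pool.Agent.W945.Sig.Red

/-!
# The gap between intersections of two half-spaces and networks with two sigmoids
-/

set_option autoImplicit false

namespace Pool.Agent.NPC.Y604SL

open Pool.Agent.NPC Pool.Agent.NPC.WC648 Pool.Agent.W945 Pool.Agent.W945.Sig

/-- The labelled points are separated by an intersection of two half-spaces with weights of
absolute value at most three and margin one: the points with label one satisfy `u · x ≤ 0` and
`v · x ≤ 0`, the other points satisfy `u · x ≥ 1` or `v · x ≥ 1`. -/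
def TwoHalfSpaces (I : Instance) : Prop :=
  (∀ p ∈ I.2, p.1.length = I.1) ∧
    ∃ u v : Fin I.1 → ℝ, (∀ i, |u i| ≤ 3 ∧ |v i| ≤ 3) ∧ ∀ p ∈ I.2,
      (p.2 = true → dot u (fun i => p.1.getD i false) ≤ 0 ∧
        dot v (fun i => p.1.getD i false) ≤ 0) ∧
      (p.2 = false → 1 ≤ dot u (fun i => p.1.getD i false) ∨
        1 ≤ dot v (fun i => p.1.getD i false))

theorem dot_smul {k : ℕ} (c : ℝ) (w : Fin k → ℝ) (x : Fin k → Bool) :
    dot (fun i => c * w i) x = c * dot w x := by
  unfold dot
  rw [Finset.mul_sum]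
  exact Finset.sum_congr rfl fun i _ => by ring

/-- An intersection of two half-spaces with a margin is computed by a network with two
sigmoids. -/
theorem loadable_of_two {I : Instance} (h : TwoHalfSpaces I) : Loadable I := by
  obtain ⟨hlen, u, v, _, huv⟩ := h
  refine ⟨hlen, ⟨fun i => -2 * u i, fun i => -2 * v i, 2, 2, -3 / 2, 1, 1⟩, ?_⟩
  intro p hp
  obtain ⟨h1, h2⟩ := huv p hp
  unfold Params.output
  simp only
  rw [dot_smul, dot_smul]
  set U := dot u (fun i => p.1.getD i false)
  set V := dot v (fun i => p.1.getD i false)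
  cases hb : p.2
  · rw [heaviside_false]
    have a1 := Real.sigmoid_lt_one (-2 * U + 2)
    have a2 := Real.sigmoid_lt_one (-2 * V + 2)
    have a3 := sigmoid_zero_half
    rcases h2 hb with h3 | h3
    · have := Real.sigmoid_le (a := -2 * U + 2) (b := 0) (by linarith)
      linarith
    · have := Real.sigmoid_le (a := -2 * V + 2) (b := 0) (by linarith)
      linarith
  · rw [heaviside_true]
    obtain ⟨h3, h4⟩ := h1 hb
    have a1 : Real.sigmoid 2 ≤ Real.sigmoid (-2 * U + 2) := Real.sigmoid_le (by linarith)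
    have a2 : Real.sigmoid 2 ≤ Real.sigmoid (-2 * V + 2) := Real.sigmoid_le (by linarith)
    have a3 := sigmoid_two
    linarith

theorem des_abs : ∀ (b : Bool) (q : Fin 6), -3 ≤ des b q ∧ des b q ≤ 3 := by decide

theorem abs_wt (L : List NV) (τ : NV → Bool) (n : ℕ) :
    |wt L (fun v q => des (τ v) q) n| ≤ 3 := by
  unfold wt
  split_ifs with h
  · obtain ⟨h1, h2⟩ := des_abs (τ L[n / 66]) ⟨n % 66, h.2⟩
    have hc : (1 : ℝ) ≤ (L.count L[n / 66] : ℝ) := by
      have : 0 < L.count L[n / 66] := List.count_pos_iff.2 (List.getElem_mem _)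
      exact_mod_cast this
    have h3 : |((des (τ L[n / 66]) ⟨n % 66, h.2⟩ : ℤ) : ℝ)| ≤ 3 := by
      rw [abs_le]
      constructor
      · have : ((-3 : ℤ) : ℝ) ≤ ((des (τ L[n / 66]) ⟨n % 66, h.2⟩ : ℤ) : ℝ) := by exact_mod_cast h1
        simpa using this
      · have : ((des (τ L[n / 66]) ⟨n % 66, h.2⟩ : ℤ) : ℝ) ≤ ((3 : ℤ) : ℝ) := by exact_mod_cast h2
        simpa using this
    rw [abs_div, abs_of_pos (by linarith : (0 : ℝ) < (L.count L[n / 66] : ℝ))]
    exact (div_le_self (abs_nonneg _) hc).trans h3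
  · simp

/-- The instances of the reduction with a solution are separated by an intersection of two
half-spaces. -/
theorem two_of_nae (φ : List (NV × NV × NV)) (h : NAE φ) : TwoHalfSpaces (red φ) := by
  classical
  obtain ⟨τ, hτ⟩ := h
  refine ⟨red_wf φ, ?_⟩
  set L := vars φ with hL
  set W₁ : ℕ → ℝ := fun n => wt L (fun v q => des (τ v) q) n with hW₁
  set W₂ : ℕ → ℝ := fun n => wt L (fun v q => des (!(τ v)) q) n with hW₂
  refine ⟨fun i => W₁ i, fun i => W₂ i, fun i => ⟨abs_wt L τ i, abs_wt L (fun v => !(τ v)) i⟩, ?_⟩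
  have evc : ∀ (w : ℕ → ℝ) (x : List Bool) (hx : x.length = (red φ).1),
      dot (fun i : Fin (red φ).1 => w i) (fun i => x.getD i false) = Sig.ev w 0 x := by
    intro w x hx
    rw [dot_eq_ev _ _ hx, ev_eq_sum, ev_eq_sum]
    apply Finset.sum_congr rfl
    intro i hi
    rw [Finset.mem_range, hx] at hi
    simp [hi]
  have hev : ∀ v ∈ L, ∀ s : Finset (Fin 6),
      Sig.ev W₁ 0 (pt L v (blk s)) = ((∑ q ∈ s, des (τ v) q : ℤ) : ℝ) ∧
      Sig.ev W₂ 0 (pt L v (blk s)) = ((∑ q ∈ s, des (!(τ v)) q : ℤ) : ℝ) := by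
    intro v hv s
    rw [ev_pt, ev_pt]
    push_cast
    exact ⟨Finset.sum_congr rfl fun q _ => cq_wt L _ hv q,
      Finset.sum_congr rfl fun q _ => cq_wt L _ hv q⟩
  intro p hp
  have hpl := red_wf φ p hp
  rw [evc W₁ _ hpl, evc W₂ _ hpl]
  unfold red at hp
  simp only [List.mem_append, List.mem_flatMap, List.mem_map, List.mem_cons, List.not_mem_nil,
    or_false] at hp
  rcases hp with ⟨v, hv, g, hg, rfl⟩ | ⟨t, ht, hpt⟩
  · unfold gadL at hg
    rw [List.mem_append, List.mem_map] at hg
    rcases hg with ⟨s, hs, rfl⟩ | hg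
    · have hsep : sep s := by
        rw [List.mem_filter] at hs
        exact of_decide_eq_true hs.2
      obtain ⟨e1, e2⟩ := hev v hv s
      rw [e1, e2]
      by_cases hb : bal s
      · obtain ⟨f1, f2⟩ := des_bal s hsep hb
        simp only [hb, decide_true]
        refine ⟨fun _ => ⟨?_, ?_⟩, fun h => absurd h (by simp)⟩
        · cases τ v <;> simp only [des] <;> exact_mod_cast (by assumption)
        · cases τ v <;> simp only [des] <;> exact_mod_cast (by assumption)
      · have f := des_unbal s hsep hb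
        simp only [hb, decide_false]
        refine ⟨fun h => absurd h (by simp), fun _ => ?_⟩
        cases τ v
        · simp only [des, Bool.not_false]
          rcases f with f | f
          · right; exact_mod_cast f
          · left; exact_mod_cast f
        · simp only [des, Bool.not_true]
          rcases f with f | f
          · left; exact_mod_cast f
          · right; exact_mod_cast f
    · rw [List.mem_singleton] at hg
      subst hg
      obtain ⟨e1, e2⟩ := hev v hv {0, 1}
      have h01 : ∀ b : Bool, ∑ q ∈ ({0, 1} : Finset (Fin 6)), des b q ≤ 0 := by decide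
      refine ⟨fun _ => ⟨?_, ?_⟩, fun h => absurd h (by simp)⟩
      · rw [e1]
        exact_mod_cast h01 (τ v)
      · rw [e2]
        exact_mod_cast h01 (!(τ v))
  · have m : ∀ v ∈ ({t.1, t.2.1, t.2.2} : Finset NV), v ∈ L := by
      intro v hv
      simp only [Finset.mem_insert, Finset.mem_singleton] at hv
      refine List.mem_flatMap.2 ⟨t, ht, ?_⟩
      simpa using hv
    have hnae := hτ t ht
    have hnae' : ¬ ((!(τ t.1)) = (!(τ t.2.1)) ∧ (!(τ t.2.1)) = (!(τ t.2.2))) := by
      simpa using hnae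
    have hc : ∀ q : Fin 6, (q = 0 ∨ q = 1) →
        Sig.ev W₁ 0 (ptc L t (blk {q})) ≤ 0 ∧ Sig.ev W₂ 0 (ptc L t (blk {q})) ≤ 0 := by
      intro q hq
      rw [ev_ptc, ev_ptc, Finset.sum_congr rfl fun v hv => cq_wt L _ (m v hv) q,
        Finset.sum_congr rfl fun v hv => cq_wt L _ (m v hv) q]
      exact ⟨by exact_mod_cast clause_nonpos τ t hnae q hq,
        by exact_mod_cast clause_nonpos (fun v => !(τ v)) t hnae' q hq⟩
    rcases hpt with rfl | rfl
    · exact ⟨fun _ => hc 0 (Or.inl rfl), fun h => absurd h (by simp)⟩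
    · exact ⟨fun _ => hc 1 (Or.inr rfl), fun h => absurd h (by simp)⟩

/-- Every property between the two extremes is NP-hard, for instances with at most `k` points. -/
theorem hardPr_between {P : Instance → Prop} (h1 : ∀ I, TwoHalfSpaces I → P I)
    (h2 : ∀ I, P I → Loadable I) : HardPr Few P :=
  hardI_NAE.toHardPr.trans red_poly (fun φ _ => red_few φ) fun φ _ =>
    ⟨fun h => h1 _ (two_of_nae φ h), fun h => sound φ (h2 _ h)⟩

/-- The gap version. -/
theorem gap : ∀ L : Set (List Bool), InNP L → ∃ f : List Bool → Instance,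
    PolyTime (fun x => bits (f x)) ∧ (∀ x, Few (f x)) ∧ (∀ x ∈ L, TwoHalfSpaces (f x)) ∧
      ∀ x, x ∉ L → ¬ Loadable (f x) := by
  intro L hL
  obtain ⟨g, hg, -, hgL⟩ := hardI_NAE.toHardPr L hL
  refine ⟨fun x => red (g x), ?_, fun x => red_few _, fun x hx => two_of_nae _ ((hgL x).1 hx),
    fun x hx h => hx ((hgL x).2 (sound _ h))⟩
  exact PC.toPolyTime_bits red_poly g hg

end Pool.Agent.NPC.Y604SL
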